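import Mathlib

set_option autoImplicit false

namespace Pool.Agent.H85.BS

open Relation

variable {V : Type*}

/-- the properties of the linear forest produced by the greedy (Kruskal) choice
of arcs in the order of decreasing weight -/
structure Greedy (w : V → V → ℝ) (F : V → V → Prop) : Prop where
  pos : ∀ u v, F u v → 0 < w u v
  fn : ∀ u v v', F u v → F u v' → v = v'
  inj : ∀ u u' v, F u v → F u' v → u = u'
  acyc : ∀ v, ¬ TransGen F v v
  src : ∀ z s, (∀ u, ¬ F u s) → 0 < w z s →
    (∃ z', F z z' ∧ w z s ≤ w z z') ∨ ReflTransGen (fun a b => F a b ∧ w z s ≤ w a b) s z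
  snk : ∀ u z, (∀ v, ¬ F u v) → 0 < w u z →
    (∃ z', F z' z ∧ w u z ≤ w z' z) ∨ ReflTransGen (fun a b => F a b ∧ w u z ≤ w a b) z u

theorem Greedy.rev {w : V → V → ℝ} {F : V → V → Prop} (h : Greedy w F) :
    Greedy (fun u v => w v u) (fun u v => F v u) where
  pos := fun u v huv => h.pos v u huv
  fn := fun u v v' h1 h2 => h.inj v v' u h1 h2
  inj := fun u u' v h1 h2 => h.fn v u u' h1 h2
  acyc := fun v hv => h.acyc v (transGen_swap.mp hv)
  src := by
    intro z s hs hz
    rcases h.snk s z hs hz with h1 | h1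
    · exact Or.inl h1
    · right
      have := reflTransGen_swap.mpr h1
      exact this
  snk := by
    intro u z hu hz
    rcases h.src z u hu hz with h1 | h1
    · exact Or.inl h1
    · right
      have := reflTransGen_swap.mpr h1
      exact this

/-- paths after adding one arc -/
theorem add_arc {F : V → V → Prop} {u v x y : V}
    (h : ReflTransGen (fun a b => F a b ∨ (a = u ∧ b = v)) x y) :
    ReflTransGen F x y ∨ (ReflTransGen F x u ∧ ReflTransGen F v y) := by
  induction h with
  | refl => exact Or.inl ReflTransGen.refl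
  | tail _ hbc ih =>
    rcases hbc with hbc | ⟨rfl, rfl⟩
    · rcases ih with ih | ⟨ih1, ih2⟩
      · exact Or.inl (ih.tail hbc)
      · exact Or.inr ⟨ih1, ih2.tail hbc⟩
    · rcases ih with ih | ⟨ih1, ih2⟩
      · exact Or.inr ⟨ih, ReflTransGen.refl⟩
      · exact Or.inr ⟨ih1, ReflTransGen.refl⟩

/-- the state of the greedy algorithm after the arcs of `s` -/
structure Stage (w : V → V → ℝ) (s : Finset (V × V)) (F : V → V → Prop) : Prop where
  sub : ∀ u v, F u v → (u, v) ∈ s
  fn : ∀ u v v', F u v → F u v' → v = v'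
  inj : ∀ u u' v, F u v → F u' v → u = u'
  acyc : ∀ v, ¬ TransGen F v v
  blk : ∀ u v, (u, v) ∈ s → F u v ∨ (∃ v', F u v' ∧ w u v ≤ w u v') ∨
    (∃ u', F u' v ∧ w u v ≤ w u' v) ∨ ReflTransGen (fun a b => F a b ∧ w u v ≤ w a b) v u

theorem exists_stage [DecidableEq V] (w : V → V → ℝ) (s : Finset (V × V)) :
    ∃ F : V → V → Prop, Stage w s F := by
  refine Finset.induction_on_min_value (fun p : V × V => w p.1 p.2) s ?_ ?_
  · refine ⟨fun _ _ => False, ?_, ?_, ?_, ?_, ?_⟩
    · intro u v h; exact h.elim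
    · intro u v v' h; exact h.elim
    · intro u v v' h; exact h.elim
    · intro v h
      obtain ⟨z, hz, _⟩ := TransGen.head'_iff.mp h
      exact hz
    · intro u v h; simp at h
  · intro p s hp hmin ih
    obtain ⟨F, hF⟩ := ih
    obtain ⟨u, v⟩ := p
    have hw : ∀ a b, F a b → w u v ≤ w a b := fun a b hab => hmin (a, b) (hF.sub a b hab)
    by_cases hb : (∃ v', F u v') ∨ (∃ u', F u' v) ∨ ReflTransGen F v u
    · refine ⟨F, fun a b h => Finset.mem_insert_of_mem (hF.sub a b h), hF.fn, hF.inj, hF.acyc, ?_⟩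
      intro a b hab
      rcases Finset.mem_insert.mp hab with hab | hab
      · obtain ⟨rfl, rfl⟩ := Prod.mk.inj hab
        right
        rcases hb with ⟨v', h1⟩ | ⟨u', h1⟩ | h1
        · exact Or.inl ⟨v', h1, hw _ _ h1⟩
        · exact Or.inr (Or.inl ⟨u', h1, hw _ _ h1⟩)
        · right; right
          exact ReflTransGen.mono (fun x y hxy => ⟨hxy, hw _ _ hxy⟩) _ _ h1
      · exact hF.blk a b hab
    · push Not at hb
      obtain ⟨hb1, hb2, hb3⟩ := hb
      have hmono : ∀ a b, F a b → (fun a b => F a b ∨ (a = u ∧ b = v)) a b :=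
        fun a b h => Or.inl h
      refine ⟨fun a b => F a b ∨ (a = u ∧ b = v), ?_, ?_, ?_, ?_, ?_⟩
      · rintro a b (h | ⟨rfl, rfl⟩)
        · exact Finset.mem_insert_of_mem (hF.sub a b h)
        · exact Finset.mem_insert_self _ _
      · rintro a b b' (h | ⟨rfl, rfl⟩) (h' | ⟨h1, rfl⟩)
        · exact hF.fn a b b' h h'
        · subst h1; exact (hb1 _ h).elim
        · exact (hb1 _ h').elim
        · rfl
      · rintro a a' b (h | ⟨rfl, rfl⟩) (h' | ⟨rfl, h1⟩)
        · exact hF.inj a a' b h h'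
        · subst h1; exact (hb2 _ h).elim
        · exact (hb2 _ h').elim
        · rfl
      · intro x hx
        obtain ⟨z, hz, hzx⟩ := TransGen.head'_iff.mp hx
        rcases hz with hz | ⟨rfl, rfl⟩
        · rcases add_arc hzx with h1 | ⟨h1, h2⟩
          · exact hF.acyc x (TransGen.head' hz h1)
          · exact hb3 (h2.trans (ReflTransGen.head hz h1))
        · rcases add_arc hzx with h1 | ⟨h1, h2⟩
          · exact hb3 h1
          · exact hb3 h1
      · intro a b hab
        rcases Finset.mem_insert.mp hab with hab | hab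
        · obtain ⟨rfl, rfl⟩ := Prod.mk.inj hab
          exact Or.inl (Or.inr ⟨rfl, rfl⟩)
        · rcases hF.blk a b hab with h1 | ⟨v', h1, h2⟩ | ⟨u', h1, h2⟩ | h1
          · exact Or.inl (Or.inl h1)
          · exact Or.inr (Or.inl ⟨v', Or.inl h1, h2⟩)
          · exact Or.inr (Or.inr (Or.inl ⟨u', Or.inl h1, h2⟩))
          · refine Or.inr (Or.inr (Or.inr ?_))
            exact ReflTransGen.mono (fun x y hxy => ⟨Or.inl hxy.1, hxy.2⟩) _ _ h1

theorem exists_greedy [Fintype V] [DecidableEq V] (w : V → V → ℝ) :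
    ∃ F : V → V → Prop, Greedy w F := by
  classical
  obtain ⟨F, hF⟩ := exists_stage w (Finset.univ.filter (fun p : V × V => 0 < w p.1 p.2))
  refine ⟨F, ?_, hF.fn, hF.inj, hF.acyc, ?_, ?_⟩
  · intro u v h
    have := hF.sub u v h
    simpa using this
  · intro z s hs hz
    rcases hF.blk z s (by simpa using hz) with h1 | h1 | ⟨u', h1, _⟩ | h1
    · exact (hs _ h1).elim
    · exact Or.inl h1
    · exact (hs _ h1).elim
    · exact Or.inr h1
  · intro u z hu hz
    rcases hF.blk u z (by simpa using hz) with h1 | ⟨v', h1, _⟩ | h1 | h1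
    · exact (hu _ h1).elim
    · exact (hu _ h1).elim
    · exact Or.inl h1
    · exact Or.inr h1

end Pool.Agent.H85.BS
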