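import Pool.Agent.H85.BSRun

set_option autoImplicit false

namespace Pool.Agent.H85.BS

open Relation Pool.Agent.H85.HC

variable {V : Type*} [Fintype V] [DecidableEq V]

/-- a cycle through a vertex at least as heavy as the total weight into this vertex -/
def Obj (w : V → V → ℝ) : Prop := ∃ s, Reach w Finset.univ s s (∑ u, w u s)

/-- standing assumptions -/
structure Std (w : V → V → ℝ) (F : V → V → Prop) : Prop where
  gr : Greedy w F
  nn : ∀ u v, 0 ≤ w u v
  ll : ∀ v, w v v = 0
  st : ∀ u v, ReflTransGen (fun a b => 0 < w a b) u v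
  hin : ∀ v, ∃ u, 0 < w u v
  hout : ∀ v, ∃ u, 0 < w v u

omit [Fintype V] [DecidableEq V] in
theorem Std.rev {w : V → V → ℝ} {F : V → V → Prop} (h : Std w F) :
    Std (fun u v => w v u) (fun u v => F v u) where
  gr := h.gr.rev
  nn := fun u v => h.nn v u
  ll := h.ll
  st := fun u v => reflTransGen_swap.mpr (h.st v u)
  hin := h.hout
  hout := h.hin

/-- minimal elements of a property of finite sets -/
theorem exists_min (p : Finset V → Prop) (S : Finset V) (hS : p S) :
    ∃ T, T ⊆ S ∧ p T ∧ ∀ T', p T' → T' ⊆ T → T' = T := by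
  induction S using Finset.strongInduction with
  | H S ih =>
    by_cases h : ∃ T', p T' ∧ T' ⊂ S
    · obtain ⟨T', h1, h2⟩ := h
      obtain ⟨T, h3, h4, h5⟩ := ih T' h2 h1
      exact ⟨T, h3.trans h2.1, h4, h5⟩
    · refine ⟨S, Finset.Subset.refl _, hS, ?_⟩
      intro T' h1 h2
      by_contra hne
      exact h ⟨T', h1, lt_of_le_of_ne h2 hne⟩

/-- the first case: the minimal source-closed set is one region -/
theorem T3 {w : V → V → ℝ} {F : V → V → Prop} {P : Finset V} (hS : Std w F) (hP : SC w F P)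
    (hmin : ∀ Q, SC w F Q → Q ⊆ P → Q = P) {t : V} (ht : t ∈ P) (htx : ∀ y, F t y → y ∉ P)
    (hreach : ∀ x ∈ P, ReflTransGen (Rel w F P) x t) : Obj w := by
  have hF := hS.gr
  have h0 := hS.nn
  have key : ∀ n : ℕ, ∀ K : Finset V, (Finset.univ \ K).card = n → t ∈ K → Cl F P K →
      Good w F P K → (∃ x ∈ P, x ∉ K) → Obj w := by
    intro n
    induction n using Nat.strong_induction_on with
    | _ n ih =>
      intro K hn htK hK hG hx
      have hex : ∃ s ∈ P, (∀ x, ¬ F x s) ∧ s ∉ K ∧ ∃ x ∈ K, 0 < w x s := by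
        by_contra hc
        push Not at hc
        have hsc : SC w F (P \ K) := by
          refine ⟨?_, ?_, ?_⟩
          · obtain ⟨x, hx1, hx2⟩ := hx
            exact ⟨x, Finset.mem_sdiff.mpr ⟨hx1, hx2⟩⟩
          · intro u v huv hv
            obtain ⟨hv1, hv2⟩ := Finset.mem_sdiff.mp hv
            have hu := hP.fw u v huv hv1
            exact Finset.mem_sdiff.mpr ⟨hu, fun hc => hv2 (hK u v hc hu hv1 huv)⟩
          · intro u v hvs huv hv
            obtain ⟨hv1, hv2⟩ := Finset.mem_sdiff.mp hv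
            have hu := hP.src u v hvs huv hv1
            exact Finset.mem_sdiff.mpr ⟨hu, fun hu2 => absurd huv (not_lt.mpr (hc v hv1 hvs hv2 u hu2))⟩
        have := hmin _ hsc Finset.sdiff_subset
        rw [← this] at ht
        exact (Finset.mem_sdiff.mp ht).2 htK
      classical
      obtain ⟨s, hs, hsmax⟩ := Finset.exists_max_image
        (Finset.univ.filter (fun s => s ∈ P ∧ (∀ x, ¬ F x s) ∧ s ∉ K ∧ ∃ x ∈ K, 0 < w x s))
        (fun s => g w F K s) (by
          obtain ⟨s, h1, h2, h3, h4⟩ := hex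
          exact ⟨s, by simpa using ⟨h1, h2, h3, h4⟩⟩)
      have hs' : s ∈ P ∧ (∀ x, ¬ F x s) ∧ s ∉ K ∧ ∃ x ∈ K, 0 < w x s := by simpa using hs
      obtain ⟨hsP, hss, hsK, hKs⟩ := hs'
      obtain ⟨y, l, hrun⟩ := exists_run (hreach s hsP) htK hsK
      have hmax : ∀ v ∈ P, (∀ x, ¬ F x v) → v ∉ K → (∃ x ∈ K, 0 < w x v) →
          g w F K v ≤ g w F K s := by
        intro v h1 h2 h3 h4
        exact hsmax v (by simpa using ⟨h1, h2, h3, h4⟩)
      by_cases hall : ∃ u, 0 < w u s ∧ u ∉ K ∪ (s :: l).toFinset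
      · obtain ⟨u, hu1, hu2⟩ := hall
        refine ih _ ?_ (K ∪ (s :: l).toFinset) rfl (Finset.mem_union_left _ htK)
          (Run.cl hF hK hrun) (Good.run hF h0 hP hK hG hsP hss hKs hmax hrun)
          ⟨u, hP.src u s hss hu1 hsP, hu2⟩
        rw [← hn]
        apply Finset.card_lt_card
        refine ⟨Finset.sdiff_subset_sdiff (Finset.Subset.refl _) Finset.subset_union_left, ?_⟩
        intro hc
        have h1 : s ∈ Finset.univ \ K := Finset.mem_sdiff.mpr ⟨Finset.mem_univ _, hsK⟩
        have h2 := hc h1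
        exact (Finset.mem_sdiff.mp h2).2 (Finset.mem_union_right _ (by simp))
      · push Not at hall
        refine ⟨s, ?_⟩
        have hGy : Reach w K y s (g w F K s) := hG y hrun.mem s hsP hss hsK hKs
        cases l with
        | nil =>
          have h1 := next_ge_M hF h0 hP hK hsK hsP hss ReflTransGen.refl hrun.2.2
          have h2 := (reach_one (K := {s}) hrun.2.2.1 (Finset.mem_singleton_self s)).trans hGy
            (Finset.disjoint_singleton_left.mpr hsK)
          refine h2.mono (Finset.subset_univ _) ?_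
          have h3 : ∑ u, w u s = W w K s := by
            unfold W
            symm
            apply Finset.sum_subset (Finset.subset_univ _)
            intro x _ hxK
            by_contra hne
            have hpos : 0 < w x s := lt_of_le_of_ne (h0 x s) (Ne.symm hne)
            have h4 := hall x hpos
            simp only [List.toFinset_cons, List.toFinset_nil, Finset.mem_union,
              Finset.mem_insert, Finset.notMem_empty, or_false] at h4
            rcases h4 with h4 | h4
            · exact hxK h4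
            · subst h4
              exact hne (hS.ll _)
          rw [h3]
          unfold g
          linarith
        | cons b l =>
          have hK1 : Cl F P (K ∪ (b :: l).toFinset) := Run.cl hF hK hrun.2.2.2
          have h1 := next_ge_M hF h0 hP hK1 hrun.cons_notMem hsP hss ReflTransGen.refl hrun.2.2.1
          have h2 := Run.through hF h0 hP hK hsP hss hrun.2.2.2
          have h3 : s ∉ (b :: l).toFinset := fun hc => hrun.2.1 (List.mem_toFinset.mp hc)
          have h4 := reach_cons h2 h3 hrun.2.2.1.1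
          have h5 : Disjoint (insert s (b :: l).toFinset) K := by
            rw [Finset.disjoint_insert_left]
            exact ⟨hsK, hrun.2.2.2.disj.symm⟩
          have h6 := h4.trans hGy h5
          refine h6.mono (Finset.subset_univ _) ?_
          have h7 : ∑ u, w u s = W w (K ∪ (b :: l).toFinset) s := by
            unfold W
            symm
            apply Finset.sum_subset (Finset.subset_univ _)
            intro x _ hxK
            by_contra hne
            have hpos : 0 < w x s := lt_of_le_of_ne (h0 x s) (Ne.symm hne)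
            have h8 := hall x hpos
            rw [run_set, Finset.mem_insert] at h8
            rcases h8 with h8 | h8
            · subst h8
              exact hne (hS.ll _)
            · exact hxK h8
          rw [h7]
          unfold g
          linarith
  refine key _ {t} rfl (Finset.mem_singleton_self t) ?_ ?_ ?_
  · intro x y hx _ hy hxy
    rw [Finset.mem_singleton.mp hx] at hxy
    exact (htx y hxy hy).elim
  · intro a ha v _ _ _ hx
    obtain ⟨x, hx1, hx2⟩ := hx
    rw [Finset.mem_singleton.mp hx1] at hx2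
    rw [Finset.mem_singleton.mp ha]
    refine (reach_one hx2 (Finset.mem_singleton_self t)).mono (Finset.Subset.refl _) ?_
    have hM : 0 ≤ M w F {t} v := M_nonneg
    have hW : W w {t} v = w t v := by
      unfold W
      exact Finset.sum_singleton _ _
    unfold g
    linarith
  · by_contra hc
    push Not at hc
    have hts : ∀ x, ¬ F x t := by
      intro x hx
      have h1 := Finset.mem_singleton.mp (hc x (hP.fw x t hx ht))
      subst h1
      exact hF.acyc x (TransGen.single hx)
    obtain ⟨u, hu⟩ := hS.hin t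
    have h1 := Finset.mem_singleton.mp (hc u (hP.src u t hts hu ht))
    subst h1
    rw [hS.ll] at hu
    exact lt_irrefl _ hu

omit [Fintype V] in
/-- regions meet `P` -/
theorem RC.meet {w : V → V → ℝ} {F : V → V → Prop} {P Q : Finset V} (hS : Std w F)
    (hP : P.Nonempty) (hQ : RC w F P Q) : ∃ x ∈ Q, x ∈ P := by
  by_contra hc
  push Not at hc
  obtain ⟨p, hp⟩ := hP
  obtain ⟨q, hq⟩ := hQ.ne
  have : ∀ x, ReflTransGen (fun a b => 0 < w a b) q x → x ∈ Q := by
    intro x hx
    induction hx with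
    | refl => exact hq
    | tail _ hbc ih => exact hQ.cl _ _ ⟨hbc, Or.inl (hc _ ih)⟩ ih
  exact hc p (this p (hS.st q p)) hp

omit [Fintype V] [DecidableEq V] in
/-- regions are source-closed in the reversed digraph -/
theorem RC.sc {w : V → V → ℝ} {F : V → V → Prop} {P Q : Finset V} (hS : Std w F)
    (hQ : RC w F P Q) : SC (fun u v => w v u) (fun u v => F v u) Q where
  ne := hQ.ne
  fw := fun u v huv hv => hQ.cl v u ⟨hS.gr.pos _ _ huv, Or.inr (Or.inl huv)⟩ hv
  src := fun u v hv huv hvQ => hQ.cl v u ⟨huv, Or.inr (Or.inr hv)⟩ hvQ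

omit [Fintype V] in
theorem RC.inter {w : V → V → ℝ} {F : V → V → Prop} {P Q Q' : Finset V}
    (hQ : RC w F P Q) (hQ' : RC w F P Q') (hne : (Q ∩ Q').Nonempty) : RC w F P (Q ∩ Q') where
  ne := hne
  cl := by
    intro x y hxy hx
    obtain ⟨h1, h2⟩ := Finset.mem_inter.mp hx
    exact Finset.mem_inter.mpr ⟨hQ.cl _ _ hxy h1, hQ'.cl _ _ hxy h2⟩

omit [Fintype V] in
theorem SC.inter {w : V → V → ℝ} {F : V → V → Prop} {Q Q' : Finset V}
    (hQ : SC w F Q) (hQ' : SC w F Q') (hne : (Q ∩ Q').Nonempty) : SC w F (Q ∩ Q') where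
  ne := hne
  fw := by
    intro u v huv hv
    obtain ⟨h1, h2⟩ := Finset.mem_inter.mp hv
    exact Finset.mem_inter.mpr ⟨hQ.fw _ _ huv h1, hQ'.fw _ _ huv h2⟩
  src := by
    intro u v hvs huv hv
    obtain ⟨h1, h2⟩ := Finset.mem_inter.mp hv
    exact Finset.mem_inter.mpr ⟨hQ.src _ _ hvs huv h1, hQ'.src _ _ hvs huv h2⟩

/-- if there is no object then there are two disjoint minimal regions -/
theorem two_regions {w : V → V → ℝ} {F : V → V → Prop} {P : Finset V} (hS : Std w F)
    (hP : SC w F P) (hmin : ∀ Q, SC w F Q → Q ⊆ P → Q = P) (hno : ¬ Obj w) :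
    ∃ Q1 Q2, RC w F P Q1 ∧ RC w F P Q2 ∧ (∀ Q, RC w F P Q → Q ⊆ Q1 → Q = Q1) ∧
      (∀ Q, RC w F P Q → Q ⊆ Q2 → Q = Q2) ∧ Disjoint Q1 Q2 := by
  classical
  have huniv : RC w F P Finset.univ :=
    ⟨⟨hP.ne.choose, Finset.mem_univ _⟩, fun _ _ _ _ => Finset.mem_univ _⟩
  obtain ⟨Q1, -, hQ1, hQ1m⟩ := exists_min (RC w F P) Finset.univ huniv
  -- a last vertex of a line in `Q1 ∩ P`
  have hex : ∃ t ∈ Q1, t ∈ P ∧ ∀ y, F t y → y ∉ P := by
    obtain ⟨x, hx1, hx2⟩ := RC.meet hS hP.ne hQ1
    have hwf : WellFounded (fun a b : V => TransGen F b a) := by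
      have h1 : IsTrans V (fun a b : V => TransGen F b a) := ⟨fun a b c h1 h2 => h2.trans h1⟩
      have h2 : Std.Irrefl (fun a b : V => TransGen F b a) := ⟨fun a h => hS.gr.acyc a h⟩
      exact Finite.wellFounded_of_trans_of_irrefl _
    obtain ⟨t, ⟨ht1, ht2⟩, ht3⟩ := hwf.has_min {x | x ∈ Q1 ∧ x ∈ P} ⟨x, hx1, hx2⟩
    refine ⟨t, ht1, ht2, ?_⟩
    intro y hy hyP
    exact ht3 y ⟨hQ1.cl t y ⟨hS.gr.pos _ _ hy, Or.inr (Or.inl hy)⟩ ht1, hyP⟩ (TransGen.single hy)
  obtain ⟨t, ht1, htP, htx⟩ := hex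
  have hnr : ∃ x ∈ P, ¬ ReflTransGen (Rel w F P) x t := by
    by_contra hc
    push Not at hc
    exact hno (T3 hS hP hmin htP htx hc)
  obtain ⟨x, _, hx2⟩ := hnr
  have hR : RC w F P (Finset.univ.filter (fun y => ReflTransGen (Rel w F P) x y)) := by
    refine ⟨⟨x, by simp [ReflTransGen.refl]⟩, ?_⟩
    intro a b hab ha
    simp only [Finset.mem_filter, Finset.mem_univ, true_and] at ha ⊢
    exact ha.tail hab
  obtain ⟨Q2, hsub, hQ2, hQ2m⟩ := exists_min (RC w F P) _ hR
  have htQ2 : t ∉ Q2 := by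
    intro hc
    have := hsub hc
    simp only [Finset.mem_filter, Finset.mem_univ, true_and] at this
    exact hx2 this
  refine ⟨Q1, Q2, hQ1, hQ2, hQ1m, hQ2m, ?_⟩
  by_contra hd
  rw [Finset.disjoint_iff_inter_eq_empty] at hd
  have h1 := RC.inter hQ1 hQ2 (Finset.nonempty_iff_ne_empty.mpr hd)
  have h2 := hQ1m _ h1 Finset.inter_subset_left
  rw [← h2] at ht1
  exact htQ2 (Finset.mem_inter.mp ht1).2

/-- the descent -/
theorem descent : ∀ n : ℕ, ∀ (w : V → V → ℝ) (F : V → V → Prop), Std w F → ∀ P Q : Finset V,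
    SC w F P → (∀ Q, SC w F Q → Q ⊆ P → Q = P) → RC w F P Q → Q.card = n →
    Obj w ∨ Obj (fun u v => w v u) := by
  intro n
  induction n using Nat.strong_induction_on with
  | _ n ih =>
    intro w F hS P Q hP hmin hQ hn
    by_contra hno
    push Not at hno
    obtain ⟨hno1, hno2⟩ := hno
    obtain ⟨R, hRQ, hR, hRmin⟩ := exists_min (SC (fun u v => w v u) (fun u v => F v u)) Q (RC.sc hS hQ)
    obtain ⟨Q1, Q2, h1, h2, h3, h4, h5⟩ := two_regions hS.rev hR hRmin hno2
    -- one of the two regions does not meet `P`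
    have hex : ∃ Q', RC (fun u v => w v u) (fun u v => F v u) R Q' ∧
        (∀ T, RC (fun u v => w v u) (fun u v => F v u) R T → T ⊆ Q' → T = Q') ∧
        ∀ x ∈ P, x ∉ Q' := by
      have hcase : ∀ Q', RC (fun u v => w v u) (fun u v => F v u) R Q' →
          (∃ x ∈ P, x ∈ Q') → P ⊆ Q' := by
        intro Q' hQ' hx
        obtain ⟨x, hx1, hx2⟩ := hx
        have hsc : SC w F Q' := RC.sc hS.rev hQ'
        have h6 := SC.inter hP hsc ⟨x, Finset.mem_inter.mpr ⟨hx1, hx2⟩⟩
        have h7 := hmin _ h6 Finset.inter_subset_left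
        rw [← h7]
        exact Finset.inter_subset_right
      by_cases hc1 : ∃ x ∈ P, x ∈ Q1
      · refine ⟨Q2, h2, h4, ?_⟩
        intro x hx hx2
        have h6 := hcase Q1 h1 hc1 hx
        exact Finset.disjoint_left.mp h5 h6 hx2
      · exact ⟨Q1, h1, h3, fun x hx hx2 => hc1 ⟨x, hx, hx2⟩⟩
    obtain ⟨Q', hQ', hQmin', hdis⟩ := hex
    have hsub : Q' ⊆ Q := by
      by_contra hc
      have hne : (Q' \ Q).Nonempty := by
        rw [Finset.sdiff_nonempty]
        exact hc
      have hcl : RC (fun u v => w v u) (fun u v => F v u) R (Q' \ Q) := by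
        refine ⟨hne, ?_⟩
        intro x y hxy hx
        obtain ⟨hx1, hx2⟩ := Finset.mem_sdiff.mp hx
        have hy := hQ'.cl x y hxy hx1
        refine Finset.mem_sdiff.mpr ⟨hy, fun hyQ => hx2 ?_⟩
        exact hQ.cl y x ⟨hxy.1, Or.inl (fun hyP => hdis y hyP hy)⟩ hyQ
      have h6 := hQmin' _ hcl Finset.sdiff_subset
      obtain ⟨x, hx1, hx2⟩ := RC.meet hS.rev hR.ne hQ'
      rw [← h6] at hx1
      exact (Finset.mem_sdiff.mp hx1).2 (hRQ hx2)
    have hlt : Q'.card < n := by
      rw [← hn]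
      apply Finset.card_lt_card
      refine ⟨hsub, fun hc => ?_⟩
      obtain ⟨x, hx1, hx2⟩ := RC.meet hS hP.ne hQ
      exact hdis x hx2 (hc hx1)
    rcases ih _ hlt _ _ hS.rev R Q' hR hRmin hQ' rfl with h6 | h6
    · exact hno2 h6
    · exact hno1 h6

/-- the local form of the heavy cycle theorem -/
theorem main {w : V → V → ℝ} [Nonempty V] (h0 : ∀ u v, 0 ≤ w u v) (hl : ∀ v, w v v = 0)
    (hst : ∀ u v, ReflTransGen (fun a b => 0 < w a b) u v) (hin : ∀ v, ∃ u, 0 < w u v)
    (hout : ∀ v, ∃ u, 0 < w v u) : Obj w ∨ Obj (fun u v => w v u) := by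
  obtain ⟨F, hF⟩ := exists_greedy w
  have hS : Std w F := ⟨hF, h0, hl, hst, hin, hout⟩
  have hsc : SC w F Finset.univ :=
    ⟨Finset.univ_nonempty, fun _ _ _ _ => Finset.mem_univ _, fun _ _ _ _ _ => Finset.mem_univ _⟩
  obtain ⟨P, -, hP, hmin⟩ := exists_min (SC w F) Finset.univ hsc
  exact descent _ w F hS P Finset.univ hP hmin
    ⟨Finset.univ_nonempty, fun _ _ _ _ => Finset.mem_univ _⟩ rfl

end Pool.Agent.H85.BS
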