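import Pool.Agent.H85.HCPath
import Pool.Agent.H85.BSGreedy

set_option autoImplicit false

namespace Pool.Agent.H85.BS

open Relation Pool.Agent.H85.HC

variable {V : Type*} [Fintype V] [DecidableEq V]

/-- source-closed sets -/
structure SC (w : V → V → ℝ) (F : V → V → Prop) (P : Finset V) : Prop where
  ne : P.Nonempty
  fw : ∀ u v, F u v → v ∈ P → u ∈ P
  src : ∀ u v, (∀ x, ¬ F x v) → 0 < w u v → v ∈ P → u ∈ P

/-- the exits of `P` -/
def Rel (w : V → V → ℝ) (F : V → V → Prop) (P : Finset V) (x y : V) : Prop :=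
  0 < w x y ∧ (x ∉ P ∨ F x y ∨ ∀ u, ¬ F x u)

/-- sets closed under the exits of `P` -/
structure RC (w : V → V → ℝ) (F : V → V → Prop) (P Q : Finset V) : Prop where
  ne : Q.Nonempty
  cl : ∀ x y, Rel w F P x y → x ∈ Q → y ∈ Q

/-- closed subsets in the merging process -/
def Cl (F : V → V → Prop) (P K : Finset V) : Prop :=
  ∀ x y, x ∈ K → x ∈ P → y ∈ P → F x y → y ∈ K

/-- type III in-neighbours -/
def III (w : V → V → ℝ) (F : V → V → Prop) (v z : V) : Prop :=
  0 < w z v ∧ ∀ z', F z z' → w z z' < w z v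

open Classical in
/-- the largest weight of a type III arc from `K` to `v` -/
noncomputable def M (w : V → V → ℝ) (F : V → V → Prop) (K : Finset V) (v : V) : ℝ :=
  ⨆ z : {z : V // z ∈ K ∧ III w F v z}, w z.1 v

/-- the good part of the weight into `v` -/
noncomputable def g (w : V → V → ℝ) (F : V → V → Prop) (K : Finset V) (v : V) : ℝ :=
  W w K v - M w F K v

omit [DecidableEq V] in
theorem le_M {w : V → V → ℝ} {F : V → V → Prop} {K : Finset V} {v z : V} (hz : z ∈ K)
    (h : III w F v z) : w z v ≤ M w F K v := by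
  unfold M
  exact le_ciSup (f := fun z : {z : V // z ∈ K ∧ III w F v z} => w z.1 v)
    (Set.finite_range _).bddAbove ⟨z, hz, h⟩

omit [Fintype V] [DecidableEq V] in
theorem M_nonneg {w : V → V → ℝ} {F : V → V → Prop} {K : Finset V} {v : V} :
    0 ≤ M w F K v := by
  unfold M
  exact Real.iSup_nonneg (fun z => z.2.2.1.le)

omit [Fintype V] [DecidableEq V] in
theorem M_le {w : V → V → ℝ} {F : V → V → Prop} {K : Finset V} {v : V} {c : ℝ} (hc : 0 ≤ c)
    (h : ∀ z ∈ K, III w F v z → w z v ≤ c) : M w F K v ≤ c := by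
  unfold M
  exact Real.iSup_le (fun z => h z.1 z.2.1 z.2.2) hc

omit [DecidableEq V] in
theorem M_mono {w : V → V → ℝ} {F : V → V → Prop} {K K' : Finset V} {v : V} (h : K ⊆ K') :
    M w F K v ≤ M w F K' v :=
  M_le M_nonneg (fun _ hz h3 => le_M (h hz) h3)

theorem M_insert {w : V → V → ℝ} {F : V → V → Prop} {K : Finset V} {r v : V}
    (h0 : 0 ≤ w r v) : M w F (insert r K) v ≤ w r v + M w F K v := by
  have hM : 0 ≤ M w F K v := M_nonneg
  refine M_le (by linarith) ?_
  intro z hz h3
  rcases Finset.mem_insert.mp hz with rfl | hz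
  · linarith
  · have := le_M hz h3
    linarith

omit [Fintype V] in
theorem W_insert {w : V → V → ℝ} {K : Finset V} {r v : V} (hr : r ∉ K) :
    W w (insert r K) v = w r v + W w K v := by
  unfold W
  rw [Finset.sum_insert hr]

omit [Fintype V] [DecidableEq V] in
theorem M_le_W {w : V → V → ℝ} {F : V → V → Prop} (h0 : ∀ u v, 0 ≤ w u v) (K : Finset V) (v : V) :
    M w F K v ≤ W w K v := by
  refine M_le (Finset.sum_nonneg (fun i _ => h0 i v)) ?_
  intro z hz _
  unfold W
  exact Finset.single_le_sum (f := fun i => w i v) (fun i _ => h0 i v) hz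

omit [Fintype V] [DecidableEq V] in
theorem g_nonneg {w : V → V → ℝ} {F : V → V → Prop} (h0 : ∀ u v, 0 ≤ w u v) (K : Finset V) (v : V) :
    0 ≤ g w F K v := by
  have := M_le_W (F := F) h0 K v
  unfold g; linarith

/-- the part of the weight does not change if vertices without arcs to `v` are added -/
theorem g_union {w : V → V → ℝ} {F : V → V → Prop} (h0 : ∀ u v, 0 ≤ w u v) (K S : Finset V) (v : V)
    (h : ∀ x ∈ S, ¬ 0 < w x v) : g w F (K ∪ S) v = g w F K v := by
  have h1 : ∀ x ∈ S, w x v = 0 := fun x hx => le_antisymm (not_lt.mp (h x hx)) (h0 x v)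
  have hW : W w (K ∪ S) v = W w K v := by
    unfold W
    symm
    apply Finset.sum_subset Finset.subset_union_left
    intro x hx hxK
    rcases Finset.mem_union.mp hx with hx | hx
    · exact (hxK hx).elim
    · exact h1 x hx
  have hM : M w F (K ∪ S) v = M w F K v := by
    apply le_antisymm
    · refine M_le M_nonneg ?_
      intro z hz h3
      rcases Finset.mem_union.mp hz with hz | hz
      · exact le_M hz h3
      · exact (h z hz h3.1).elim
    · exact M_mono Finset.subset_union_left
  unfold g
  rw [hW, hM]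

omit [Fintype V] [DecidableEq V] in
/-- the next arc of a line is heavy -/
theorem heavy_next {w : V → V → ℝ} {F : V → V → Prop} (hF : Greedy w F) {c : ℝ} {v z r : V}
    (h1 : ReflTransGen (fun a b => F a b ∧ c ≤ w a b) v z) (h2 : ReflTransGen F v r)
    (h3 : ¬ ReflTransGen F z r) : ∃ r', F r r' ∧ c ≤ w r r' := by
  induction h1 using ReflTransGen.head_induction_on with
  | refl => exact (h3 h2).elim
  | @head a b hab _ ih =>
    rcases ReflTransGen.cases_head h2 with rfl | ⟨d, hd, hdr⟩
    · exact ⟨_, hab.1, hab.2⟩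
    · have : d = b := hF.fn _ _ _ hd hab.1
      subst this
      exact ih hdr

omit [Fintype V] [DecidableEq V] in
/-- closed sets contain the rest of a line inside `P` -/
theorem Cl.path {w : V → V → ℝ} {F : V → V → Prop} {P K : Finset V} (hP : SC w F P)
    (hK : Cl F P K) {z r : V} (h : ReflTransGen F z r) (hr : r ∈ P) (hz : z ∈ K) : r ∈ K := by
  have key : z ∈ P ∧ (z ∈ K → r ∈ K) := by
    clear hz
    induction h using ReflTransGen.head_induction_on with
    | refl => exact ⟨hr, fun h => h⟩
    | @head a b hab _ ih =>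
      obtain ⟨h1, h2⟩ := ih
      exact ⟨hP.fw _ _ hab h1, fun h => h2 (hK _ _ h (hP.fw _ _ hab h1) h1 hab)⟩
  exact key.2 hz

omit [Fintype V] [DecidableEq V] in
theorem next_ge_M {w : V → V → ℝ} {F : V → V → Prop} {P K : Finset V} (hF : Greedy w F)
    (h0 : ∀ u v, 0 ≤ w u v) (hP : SC w F P) (hK : Cl F P K) {r y v : V} (hr : r ∉ K)
    (hrP : r ∈ P) (hvs : ∀ x, ¬ F x v) (hvr : ReflTransGen F v r)
    (hry : Rel w F P r y) : M w F K v ≤ w r y := by
  refine M_le (h0 _ _) ?_
  intro z hz h3
  have hzr : ¬ ReflTransGen F z r := fun h => hr (Cl.path hP hK h hrP hz)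
  rcases hF.src z v hvs h3.1 with ⟨z', h4, h5⟩ | h4
  · exact (lt_irrefl _ (h5.trans_lt (h3.2 z' h4))).elim
  · obtain ⟨r', h5, h6⟩ := heavy_next hF h4 hvr hzr
    rcases hry.2 with h7 | h7 | h7
    · exact (h7 hrP).elim
    · have : r' = y := hF.fn _ _ _ h5 h7
      subst this
      exact h6
    · exact (h7 _ h5).elim

/-- the local inequality which is added up along the paths -/
theorem L1 {w : V → V → ℝ} {F : V → V → Prop} {P K : Finset V} (hF : Greedy w F)
    (h0 : ∀ u v, 0 ≤ w u v) (hP : SC w F P) (hK : Cl F P K) {r y v : V} (hr : r ∉ K)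
    (hv : v ∈ P) (hvs : ∀ x, ¬ F x v) (hry : Rel w F P r y) :
    g w F (insert r K) v ≤ w r y + g w F K v := by
  have hM : M w F K v ≤ M w F (insert r K) v := M_mono (Finset.subset_insert _ _)
  unfold g
  rw [W_insert hr]
  by_cases h1 : 0 < w r v
  · have hrP : r ∈ P := hP.src _ _ hvs h1 hv
    by_cases h3 : III w F v r
    · have h4 : w r v ≤ M w F (insert r K) v := le_M (Finset.mem_insert_self _ _) h3
      have h5 : ReflTransGen F v r := by
        rcases hF.src r v hvs h1 with ⟨z', h6, h7⟩ | h6
        · exact (lt_irrefl _ (h7.trans_lt (h3.2 z' h6))).elim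
        · exact ReflTransGen.mono (fun x y hxy => hxy.1) _ _ h6
      have h6 := next_ge_M hF h0 hP hK hr hrP hvs h5 hry
      linarith
    · have h4 : ∃ r', F r r' ∧ w r v ≤ w r r' := by
        by_contra hc
        push Not at hc
        exact h3 ⟨h1, hc⟩
      obtain ⟨r', h5, h6⟩ := h4
      rcases hry.2 with h7 | h7 | h7
      · exact (h7 hrP).elim
      · have : r' = y := hF.fn _ _ _ h5 h7
        subst this
        linarith
      · exact (h7 _ h5).elim
  · have h2 : w r v = 0 := le_antisymm (not_lt.mp h1) (h0 _ _)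
    have := h0 r y
    linarith

omit [Fintype V] in
theorem Cl.insert {w : V → V → ℝ} {F : V → V → Prop} {P K : Finset V} (hF : Greedy w F)
    (hK : Cl F P K) {a b : V} (hab : Rel w F P a b) (hb : b ∈ K) :
    Cl F P (insert a K) := by
  intro x y hx hxP hyP hxy
  rcases Finset.mem_insert.mp hx with rfl | hx
  · rcases hab.2 with h | h | h
    · exact (h hxP).elim
    · have : b = y := hF.fn _ _ _ h hxy
      subst this
      exact Finset.mem_insert_of_mem hb
    · exact (h _ hxy).elim
  · exact Finset.mem_insert_of_mem (hK x y hx hxP hyP hxy)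

/-- `a, l_0, ...` is a path outside `K` which follows exits and then enters `K` in `y` -/
def Run (w : V → V → ℝ) (F : V → V → Prop) (P K : Finset V) (y : V) : V → List V → Prop
  | a, [] => a ∉ K ∧ y ∈ K ∧ Rel w F P a y
  | a, b :: l => a ∉ K ∧ a ∉ b :: l ∧ Rel w F P a b ∧ Run w F P K y b l

omit [Fintype V] in
theorem run_set (K : Finset V) (a b : V) (l : List V) :
    K ∪ (a :: b :: l).toFinset = insert a (K ∪ (b :: l).toFinset) := by
  rw [List.toFinset_cons (a := a), Finset.union_insert]

omit [Fintype V] [DecidableEq V] in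
theorem Run.mem {w : V → V → ℝ} {F : V → V → Prop} {P K : Finset V} {y : V} {l : List V} :
    ∀ {a : V}, Run w F P K y a l → y ∈ K := by
  induction l with
  | nil => intro a h; exact h.2.1
  | cons b l ih => intro a h; exact ih h.2.2.2

omit [Fintype V] [DecidableEq V] in
theorem Run.notMem {w : V → V → ℝ} {F : V → V → Prop} {P K : Finset V} {y : V} {l : List V} :
    ∀ {a : V}, Run w F P K y a l → ∀ x ∈ a :: l, x ∉ K := by
  induction l with
  | nil =>
    intro a h x hx
    rw [List.mem_singleton.mp hx]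
    exact h.1
  | cons b l ih =>
    intro a h x hx
    rcases List.mem_cons.mp hx with rfl | hx
    · exact h.1
    · exact ih h.2.2.2 x hx

omit [Fintype V] in
theorem Run.disj {w : V → V → ℝ} {F : V → V → Prop} {P K : Finset V} {y : V} {l : List V}
    {a : V} (h : Run w F P K y a l) : Disjoint K (a :: l).toFinset := by
  rw [Finset.disjoint_left]
  intro x hx hx2
  exact h.notMem x (List.mem_toFinset.mp hx2) hx

omit [Fintype V] in
theorem Run.cl {w : V → V → ℝ} {F : V → V → Prop} {P K : Finset V} (hF : Greedy w F)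
    (hK : Cl F P K) {y : V} {l : List V} :
    ∀ {a : V}, Run w F P K y a l → Cl F P (K ∪ (a :: l).toFinset) := by
  induction l with
  | nil =>
    intro a h
    have : K ∪ [a].toFinset = Insert.insert a K := by simp
    rw [this]
    exact Cl.insert hF hK h.2.2 h.2.1
  | cons b l ih =>
    intro a h
    rw [run_set]
    exact Cl.insert hF (ih h.2.2.2) h.2.2.1 (Finset.mem_union_right _ (by simp))

omit [Fintype V] in
theorem Run.cons_notMem {w : V → V → ℝ} {F : V → V → Prop} {P K : Finset V} {y a b : V}
    {l : List V} (h : Run w F P K y a (b :: l)) : a ∉ K ∪ (b :: l).toFinset := by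
  intro hc
  rcases Finset.mem_union.mp hc with hc | hc
  · exact h.1 hc
  · exact h.2.1 (List.mem_toFinset.mp hc)

omit [Fintype V] [DecidableEq V] in
theorem reach_one {w : V → V → ℝ} {a v : V} (h : 0 < w a v) {K : Finset V} (ha : a ∈ K) :
    Reach w K a v (w a v) := by
  refine ⟨[], by simp, ?_, ?_, ?_⟩
  · intro b hb
    rw [List.mem_singleton.mp hb]
    exact ha
  · exact ⟨h, trivial⟩
  · simp [pw]

omit [Fintype V] in
theorem reach_cons {w : V → V → ℝ} {S : Finset V} {a b v : V} {x : ℝ} (h : Reach w S b v x)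
    (ha : a ∉ S) (hab : 0 < w a b) : Reach w (insert a S) a v (w a b + x) := by
  have h1 : Reach w {a} a b (w a b) := reach_one hab (Finset.mem_singleton_self a)
  have h2 := h1.trans h (Finset.disjoint_singleton_left.mpr ha)
  exact h2.mono (by rw [Finset.insert_eq]) le_rfl

/-- going along the whole run -/
theorem Run.through {w : V → V → ℝ} {F : V → V → Prop} {P K : Finset V} (hF : Greedy w F)
    (h0 : ∀ u v, 0 ≤ w u v) (hP : SC w F P) (hK : Cl F P K) {v : V}
    (hv : v ∈ P) (hvs : ∀ x, ¬ F x v) {y : V} {l : List V} :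
    ∀ {a : V}, Run w F P K y a l →
      Reach w (a :: l).toFinset a y (g w F (K ∪ (a :: l).toFinset) v - g w F K v) := by
  induction l with
  | nil =>
    intro a h
    have h1 : K ∪ [a].toFinset = insert a K := by simp
    rw [h1]
    have h2 := L1 hF h0 hP hK h.1 hv hvs h.2.2
    exact (reach_one h.2.2.1 (by simp)).mono (Finset.Subset.refl _) (by linarith)
  | cons b l ih =>
    intro a h
    have h1 := ih h.2.2.2
    have h2 := L1 hF h0 hP (Run.cl hF hK h.2.2.2) h.cons_notMem hv hvs h.2.2.1
    rw [run_set]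
    have h3 : a ∉ (b :: l).toFinset := fun hc => h.2.1 (List.mem_toFinset.mp hc)
    refine (reach_cons h1 h3 h.2.2.1.1).mono ?_ (by linarith)
    rw [← List.toFinset_cons]

/-- going along a run to the last in-neighbour of `v` -/
theorem Run.seg {w : V → V → ℝ} {F : V → V → Prop} {P K : Finset V} (hF : Greedy w F)
    (h0 : ∀ u v, 0 ≤ w u v) (hP : SC w F P) (hK : Cl F P K) {v : V}
    (hv : v ∈ P) (hvs : ∀ x, ¬ F x v) {y : V} {l : List V} :
    ∀ {a : V}, Run w F P K y a l → (∃ x ∈ a :: l, 0 < w x v) →
      Reach w (a :: l).toFinset a v (g w F (K ∪ (a :: l).toFinset) v - g w F K v) := by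
  have step : ∀ (a : V) (L : Finset V), a ∉ L → g w F (insert a L) v ≤ w a v + g w F L v := by
    intro a L ha
    have hM : M w F L v ≤ M w F (insert a L) v := M_mono (Finset.subset_insert _ _)
    unfold g
    rw [W_insert ha]
    linarith
  induction l with
  | nil =>
    intro a h hx
    obtain ⟨x, hx, hxv⟩ := hx
    rw [List.mem_singleton.mp hx] at hxv
    have h1 : K ∪ [a].toFinset = insert a K := by simp
    rw [h1]
    have h2 := step a K h.1
    exact (reach_one hxv (by simp)).mono (Finset.Subset.refl _) (by linarith)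
  | cons b l ih =>
    intro a h hx
    by_cases hc : ∃ x ∈ b :: l, 0 < w x v
    · have h1 := ih h.2.2.2 hc
      have h2 := L1 hF h0 hP (Run.cl hF hK h.2.2.2) h.cons_notMem hv hvs h.2.2.1
      rw [run_set]
      have h3 : a ∉ (b :: l).toFinset := fun hc => h.2.1 (List.mem_toFinset.mp hc)
      refine (reach_cons h1 h3 h.2.2.1.1).mono ?_ (by linarith)
      rw [← List.toFinset_cons]
    · have hav : 0 < w a v := by
        obtain ⟨x, hx, hxv⟩ := hx
        rcases List.mem_cons.mp hx with rfl | hx
        · exact hxv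
        · exact (hc ⟨x, hx, hxv⟩).elim
      have h1 : g w F (K ∪ (b :: l).toFinset) v = g w F K v := by
        apply g_union h0
        intro x hx hxv
        exact hc ⟨x, List.mem_toFinset.mp hx, hxv⟩
      have h2 := step a _ h.cons_notMem
      rw [run_set]
      exact (reach_one hav (by simp)).mono (Finset.Subset.refl _) (by linarith)

omit [Fintype V] in
theorem Run.split {w : V → V → ℝ} {F : V → V → Prop} {P K : Finset V} {y x : V} {l : List V} :
    ∀ {a : V}, Run w F P K y a l → x ∈ l → ∃ l1 l2, l = l1 ++ x :: l2 ∧ Run w F P K y x l2 ∧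
      Run w F P (K ∪ (x :: l2).toFinset) x a l1 := by
  induction l with
  | nil => intro a _ hx; simp at hx
  | cons b l ih =>
    intro a h hx
    rcases List.mem_cons.mp hx with rfl | hx
    · refine ⟨[], l, rfl, h.2.2.2, h.cons_notMem, ?_, h.2.2.1⟩
      exact Finset.mem_union_right _ (by simp)
    · obtain ⟨l1, l2, h1, h2, h3⟩ := ih h.2.2.2 hx
      subst h1
      refine ⟨b :: l1, l2, rfl, h2, ?_, ?_, h.2.2.1, h3⟩
      · intro hc
        rcases Finset.mem_union.mp hc with hc | hc
        · exact h.1 hc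
        · apply h.2.1
          have := List.mem_toFinset.mp hc
          simp only [List.mem_cons, List.mem_append] at this ⊢
          tauto
      · intro hc
        apply h.2.1
        simp only [List.mem_cons, List.mem_append] at hc ⊢
        tauto

omit [Fintype V] in
theorem exists_run {w : V → V → ℝ} {F : V → V → Prop} {P K : Finset V} {a t : V}
    (h : ReflTransGen (Rel w F P) a t) (ht : t ∈ K) (ha : a ∉ K) :
    ∃ y l, Run w F P K y a l := by
  induction h using ReflTransGen.head_induction_on with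
  | refl => exact (ha ht).elim
  | @head a b hab _ ih =>
    by_cases hb : b ∈ K
    · exact ⟨b, [], ha, hb, hab⟩
    · obtain ⟨y, l, hl⟩ := ih hb
      by_cases hal : a ∈ b :: l
      · rcases List.mem_cons.mp hal with rfl | hal
        · exact ⟨y, l, hl⟩
        · obtain ⟨l1, l2, _, h2, _⟩ := hl.split hal
          exact ⟨y, l2, h2⟩
      · exact ⟨y, b :: l, ha, hal, hab, hl⟩

/-- the invariant of the merging process -/
def Good (w : V → V → ℝ) (F : V → V → Prop) (P K : Finset V) : Prop :=
  ∀ a ∈ K, ∀ v ∈ P, (∀ x, ¬ F x v) → v ∉ K → (∃ x ∈ K, 0 < w x v) → Reach w K a v (g w F K v)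

theorem Run.suffix {w : V → V → ℝ} {F : V → V → Prop} {P K : Finset V} (hF : Greedy w F)
    (h0 : ∀ u v, 0 ≤ w u v) (hP : SC w F P) (hK : Cl F P K) (hG : Good w F P K) {v : V}
    (hv : v ∈ P) (hvs : ∀ x, ¬ F x v) (hvK : v ∉ K) {y x : V} {l : List V}
    (h : Run w F P K y x l) (hx : ∃ u ∈ K ∪ (x :: l).toFinset, 0 < w u v) :
    Reach w (K ∪ (x :: l).toFinset) x v (g w F (K ∪ (x :: l).toFinset) v) := by
  by_cases hKv : ∃ u ∈ K, 0 < w u v
  · have h1 := Run.through hF h0 hP hK hv hvs h
    have h2 := hG y h.mem v hv hvs hvK hKv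
    refine (h1.trans h2 h.disj.symm).mono ?_ (by linarith)
    rw [Finset.union_comm]
  · have h1 : ∃ u ∈ x :: l, 0 < w u v := by
      obtain ⟨u, hu, huv⟩ := hx
      rcases Finset.mem_union.mp hu with hu | hu
      · exact (hKv ⟨u, hu, huv⟩).elim
      · exact ⟨u, List.mem_toFinset.mp hu, huv⟩
    have h2 := Run.seg hF h0 hP hK hv hvs h h1
    have h3 : g w F K v ≤ 0 := by
      have hM : 0 ≤ M w F K v := M_nonneg
      have hW : W w K v = 0 := by
        unfold W
        apply Finset.sum_eq_zero
        intro u hu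
        by_contra hc
        exact hKv ⟨u, hu, lt_of_le_of_ne (h0 u v) (Ne.symm hc)⟩
      unfold g
      linarith
    exact h2.mono Finset.subset_union_right (by linarith)

theorem Good.run {w : V → V → ℝ} {F : V → V → Prop} {P K : Finset V} (hF : Greedy w F)
    (h0 : ∀ u v, 0 ≤ w u v) (hP : SC w F P) (hK : Cl F P K) (hG : Good w F P K) {s y : V}
    {l : List V} (hs : s ∈ P) (hss : ∀ x, ¬ F x s) (hsK : ∃ x ∈ K, 0 < w x s)
    (hmax : ∀ v ∈ P, (∀ x, ¬ F x v) → v ∉ K → (∃ x ∈ K, 0 < w x v) → g w F K v ≤ g w F K s)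
    (h : Run w F P K y s l) : Good w F P (K ∪ (s :: l).toFinset) := by
  intro a ha v hv hvs hvK' hx
  have hvK : v ∉ K := fun hc => hvK' (Finset.mem_union_left _ hc)
  have hsK0 : s ∉ K := h.notMem s (by simp)
  have hle : g w F K v ≤ g w F K s := by
    by_cases hKv : ∃ u ∈ K, 0 < w u v
    · exact hmax v hv hvs hvK hKv
    · have hM : 0 ≤ M w F K v := M_nonneg
      have hW : W w K v = 0 := by
        unfold W
        apply Finset.sum_eq_zero
        intro u hu
        by_contra hc
        exact hKv ⟨u, hu, lt_of_le_of_ne (h0 u v) (Ne.symm hc)⟩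
      have h2 := g_nonneg (F := F) h0 K s
      have h3 : g w F K v ≤ 0 := by
        unfold g
        linarith
      linarith
  rcases Finset.mem_union.mp ha with haK | hal
  · by_cases hc : ∃ u ∈ s :: l, 0 < w u v
    · have h1 := hG a haK s hs hss hsK0 hsK
      have h2 := Run.seg hF h0 hP hK hv hvs h hc
      exact (h1.trans h2 h.disj).mono (Finset.Subset.refl _) (by linarith)
    · have h1 : g w F (K ∪ (s :: l).toFinset) v = g w F K v := by
        apply g_union h0
        intro x hx hxv
        exact hc ⟨x, List.mem_toFinset.mp hx, hxv⟩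
      have h2 : ∃ u ∈ K, 0 < w u v := by
        obtain ⟨u, hu, huv⟩ := hx
        rcases Finset.mem_union.mp hu with hu | hu
        · exact ⟨u, hu, huv⟩
        · exact (hc ⟨u, List.mem_toFinset.mp hu, huv⟩).elim
      rw [h1]
      exact (hG a haK v hv hvs hvK h2).mono Finset.subset_union_left le_rfl
  · rcases List.mem_cons.mp (List.mem_toFinset.mp hal) with rfl | hal
    · exact Run.suffix hF h0 hP hK hG hv hvs hvK h hx
    · obtain ⟨l1, l2, h1, h2, h3⟩ := h.split hal
      have hset : K ∪ (s :: l).toFinset = (K ∪ (a :: l2).toFinset) ∪ (s :: l1).toFinset := by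
        ext z
        subst h1
        simp only [Finset.mem_union, List.mem_toFinset, List.mem_cons, List.mem_append]
        tauto
      rw [hset] at hx hvK' ⊢
      by_cases hc : ∃ u ∈ s :: l1, 0 < w u v
      · have h4 := Run.through hF h0 hP hK hv hvs h2
        have h5 := hG y h2.mem s hs hss hsK0 hsK
        have h6 := Run.seg hF h0 hP (Run.cl hF hK h2) hv hvs h3 hc
        have h7 := h4.trans h5 h2.disj.symm
        have h8 := (h7.mono (K' := K ∪ (a :: l2).toFinset) (by rw [Finset.union_comm]) le_rfl).trans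
          h6 h3.disj
        exact h8.mono (Finset.Subset.refl _) (by linarith)
      · have h4 : g w F ((K ∪ (a :: l2).toFinset) ∪ (s :: l1).toFinset) v
            = g w F (K ∪ (a :: l2).toFinset) v := by
          apply g_union h0
          intro x hx hxv
          exact hc ⟨x, List.mem_toFinset.mp hx, hxv⟩
        have h5 : ∃ u ∈ K ∪ (a :: l2).toFinset, 0 < w u v := by
          obtain ⟨u, hu, huv⟩ := hx
          rcases Finset.mem_union.mp hu with hu | hu
          · exact ⟨u, hu, huv⟩
          · exact (hc ⟨u, List.mem_toFinset.mp hu, huv⟩).elim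
        rw [h4]
        exact (Run.suffix hF h0 hP hK hG hv hvs hvK h2 h5).mono Finset.subset_union_left le_rfl

end Pool.Agent.H85.BS
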