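import Pool.Agent.H85.HCMerge

set_option autoImplicit false

namespace Pool.Agent.H85.HC

open Finset

theorem two_mul_le_mul_logb (m : ℕ) (hm : 2 ≤ m) : 2 * ((m : ℝ) - 1) ≤ m * Real.logb 2 m := by
  rcases Nat.lt_or_ge m 4 with h | h
  · interval_cases m
    · have : Real.logb 2 ((2 : ℕ) : ℝ) = 1 := by
        rw [Nat.cast_ofNat]; exact Real.logb_self_eq_one (by norm_num)
      rw [this]; norm_num
    · have h3 : (4 : ℝ) ≤ Real.logb 2 ((3 : ℝ) ^ (3 : ℕ)) := by
        rw [Real.le_logb_iff_rpow_le (by norm_num) (by norm_num)]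
        norm_num
      rw [Real.logb_pow] at h3
      push_cast at h3 ⊢
      linarith
  · have h2 : (2 : ℝ) ≤ Real.logb 2 (m : ℝ) := by
      rw [Real.le_logb_iff_rpow_le (by norm_num) (by positivity)]
      have : (4 : ℝ) ≤ (m : ℝ) := by exact_mod_cast h
      norm_num
      linarith
    have hm0 : (0 : ℝ) ≤ m := by positivity
    nlinarith

theorem sum_logb_le (m : ℕ) (hm : 2 ≤ m) (n : ℕ → ℝ) (hn : ∀ i, 0 < n i) :
    ∑ i ∈ range m, Real.logb 2 (n i) + m * Real.logb 2 m
      ≤ m * Real.logb 2 (∑ i ∈ range m, n i) := by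
  set N := ∑ i ∈ range m, n i with hN
  have hm0 : (0 : ℝ) < m := by positivity
  have hNpos : 0 < N := Finset.sum_pos (fun i _ => hn i) ⟨0, by simp; omega⟩
  have key : ∑ i ∈ range m, (Real.log (n i) + Real.log m - Real.log N) ≤ 0 := by
    have : ∀ i ∈ range m, Real.log (n i) + Real.log m - Real.log N ≤ m * n i / N - 1 := by
      intro i _
      have h1 := Real.log_le_sub_one_of_pos (x := m * n i / N)
        (div_pos (mul_pos hm0 (hn i)) hNpos)
      rw [Real.log_div (mul_pos hm0 (hn i)).ne' hNpos.ne',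
        Real.log_mul hm0.ne' (hn i).ne'] at h1
      linarith
    refine (Finset.sum_le_sum this).trans (le_of_eq ?_)
    rw [Finset.sum_sub_distrib, ← Finset.sum_div, ← Finset.mul_sum, ← hN]
    simp only [sum_const, card_range, nsmul_eq_mul, mul_one]
    field_simp
    ring
  rw [Finset.sum_sub_distrib, Finset.sum_add_distrib] at key
  simp only [sum_const, card_range, nsmul_eq_mul] at key
  have hl2 : 0 < Real.log 2 := Real.log_pos (by norm_num)
  unfold Real.logb
  rw [← Finset.sum_div, mul_div_assoc', mul_div_assoc', ← add_div]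
  apply div_le_div_of_nonneg_right _ hl2.le
  linarith

theorem pick (m : ℕ) (hm : 2 ≤ m) (n : ℕ → ℝ) (hn : ∀ i, 0 < n i) (om : ℕ → ℝ) (mu : ℝ)
    (hom : ∀ i, 0 < om i) (hlt : ∑ i ∈ range m, om i < mu) :
    ∃ i < m, mu / 2 * Real.logb 2 (n i) + ((∑ l ∈ range m, om l) - om i)
      < mu / 2 * Real.logb 2 (∑ l ∈ range m, n l) := by
  by_contra hcon
  push Not at hcon
  set Om := ∑ i ∈ range m, om i with hOm
  set N := ∑ i ∈ range m, n i with hN
  have hOpos : 0 < Om := Finset.sum_pos (fun i _ => hom i) ⟨0, by simp; omega⟩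
  have hsum : ∑ i ∈ range m, (mu / 2 * Real.logb 2 N)
      ≤ ∑ i ∈ range m, (mu / 2 * Real.logb 2 (n i) + (Om - om i)) :=
    Finset.sum_le_sum fun i hi => hcon i (Finset.mem_range.mp hi)
  rw [Finset.sum_add_distrib, Finset.sum_sub_distrib, ← hOm] at hsum
  simp only [sum_const, card_range, nsmul_eq_mul] at hsum
  rw [← Finset.mul_sum] at hsum
  have h1 := sum_logb_le m hm n hn
  rw [← hN] at h1
  have h2 := two_mul_le_mul_logb m hm
  have hmu : 0 < mu := hOpos.trans hlt
  have hm1 : (0 : ℝ) < (m : ℝ) - 1 := by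
    have : (2 : ℝ) ≤ m := by exact_mod_cast hm
    linarith
  have h3 : mu / 2 * (∑ i ∈ range m, Real.logb 2 (n i) + m * Real.logb 2 m)
      ≤ mu / 2 * (m * Real.logb 2 N) := mul_le_mul_of_nonneg_left h1 (by positivity)
  have h4 : mu / 2 * (2 * ((m : ℝ) - 1)) ≤ mu / 2 * (m * Real.logb 2 m) :=
    mul_le_mul_of_nonneg_left h2 (by positivity)
  have h5 : ((m : ℝ) - 1) * Om < ((m : ℝ) - 1) * mu := mul_lt_mul_of_pos_left hlt hm1
  nlinarith

variable {V : Type*} [Fintype V] [DecidableEq V]

/-- good, nonempty, and with a vertex of small inner in-weight -/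
def Nice (w : V → V → ℝ) (mu : ℝ) (K : Finset V) : Prop :=
  FGood w K ∧ K.Nonempty ∧ ∃ y ∈ K, W w K y ≤ mu / 2 * Real.logb 2 K.card ∧
    (2 ≤ K.card → W w K y < mu / 2 * Real.logb 2 K.card)

omit [Fintype V] [DecidableEq V] in
theorem nice_singleton {w : V → V → ℝ} (h0 : ∀ v, w v v = 0) (mu : ℝ) (a : V) :
    Nice w mu {a} := by
  classical
  refine ⟨fgood_singleton w a, ⟨a, by simp⟩, a, by simp, ?_, ?_⟩
  · simp [W, h0]
  · intro h; simp at h

omit [Fintype V] in
theorem PCycle.nice {w : V → V → ℝ} {S : ℕ → Finset V} {c : ℕ → V} {m : ℕ}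
    (h : PCycle w S c m) (hw : ∀ u v, 0 ≤ w u v) {mu : ℝ} (hS : ∀ i, Nice w mu (S i))
    (hlt : ∑ l ∈ range m, W w (S l) (c l) < mu) :
    Nice w mu ((range m).biUnion S) := by
  have hm := h.two
  have hcard : (((range m).biUnion S).card : ℝ) = ∑ l ∈ range m, ((S l).card : ℝ) := by
    rw [Finset.card_biUnion]
    · push_cast; rfl
    · intro a ha b hb hab
      simp only [Finset.coe_range, Set.mem_Iio] at ha hb
      rcases lt_or_gt_of_ne hab with hl | hl
      · exact h.disj a b hl (by omega)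
      · exact (h.disj b a hl (by omega)).symm
  obtain ⟨i, hi, hi2⟩ := pick m hm (fun l => ((S l).card : ℝ))
    (fun l => by
      have := (hS l).2.1
      exact_mod_cast this.card_pos) (fun l => W w (S l) (c l)) mu (fun l => h.pos l) hlt
  obtain ⟨y, hy, hy1, _⟩ := (hS i).2.2
  have hyn : ∀ l, i < l → l < i + m → y ∉ S l := fun l hl hl2 hyl =>
    (Finset.disjoint_left.mp (h.disj i l hl hl2)) hy hyl
  have hbound : W w ((range m).biUnion S) y
      < mu / 2 * Real.logb 2 (((range m).biUnion S).card) := by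
    rw [h.W_union i y, hcard]
    refine lt_of_le_of_lt ?_ hi2
    rw [Finset.sum_eq_sum_Ico_succ_bot (by omega : i < i + m) (fun l => W w (S l) y)]
    have e := h.sum_shift' i
    rw [Finset.sum_eq_sum_Ico_succ_bot (by omega : i < i + m)] at e
    have : ∑ l ∈ Finset.Ico (i + 1) (i + m), W w (S l) y
        ≤ ∑ l ∈ Finset.Ico (i + 1) (i + m), W w (S l) (c l) := by
      apply Finset.sum_le_sum
      intro l hl
      rw [Finset.mem_Ico] at hl
      exact h.max l y (hyn l (by omega) (by omega))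
    linarith
  refine ⟨h.union_good hw, ?_, y, ?_, hbound.le, fun _ => hbound⟩
  · exact ⟨y, Finset.mem_biUnion.mpr ⟨i, Finset.mem_range.mpr hi, hy⟩⟩
  · exact Finset.mem_biUnion.mpr ⟨i, Finset.mem_range.mpr hi, hy⟩

/-- a partition of `V` into nice sets -/
structure Part (w : V → V → ℝ) (mu : ℝ) (P : Finset (Finset V)) : Prop where
  nice : ∀ K ∈ P, Nice w mu K
  disj : ∀ K ∈ P, ∀ K' ∈ P, K ≠ K' → Disjoint K K'
  cover : ∀ v : V, ∃ K ∈ P, v ∈ K

theorem part_nice [Nonempty V] {w : V → V → ℝ} (hw : ∀ u v, 0 ≤ w u v)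
    {mu : ℝ} (H : ∀ K : Finset V, K.Nonempty → K ≠ univ → ∃ v, v ∉ K ∧ 0 < W w K v)
    (hcyc : ∀ K : Finset V, ∀ a x, Reach w K a a x → x < mu) :
    ∀ N : ℕ, ∀ P : Finset (Finset V), P.card = N → Part w mu P → Nice w mu (univ : Finset V) := by
  intro N
  induction N using Nat.strong_induction_on with
  | _ N ih =>
  intro P hPN hP
  by_cases hu : (univ : Finset V) ∈ P
  · exact hP.nice _ hu
  have key : ∀ K : Finset V, ∃ c : V, ∃ K' : Finset V, K ∈ P → (K' ∈ P ∧ c ∉ K ∧ c ∈ K' ∧
      0 < W w K c ∧ ∀ v, v ∉ K → W w K v ≤ W w K c) := by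
    intro K
    by_cases hK : K ∈ P
    · obtain ⟨v, hv, hpos⟩ := H K (hP.nice K hK).2.1 (fun e => hu (e ▸ hK))
      obtain ⟨c, hc, hcmax⟩ := Finset.exists_max_image (univ \ K) (fun v => W w K v)
        ⟨v, by simp [hv]⟩
      have hcK : c ∉ K := by simpa using hc
      obtain ⟨K', hK', hcK'⟩ := hP.cover c
      exact ⟨c, K', fun _ => ⟨hK', hcK, hcK', hpos.trans_le (hcmax v (by simp [hv])),
        fun v hv => hcmax v (by simp [hv])⟩⟩
    · exact ⟨Classical.arbitrary V, K, fun h => absurd h hK⟩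
  choose c f hf using key
  obtain ⟨K0, hK0, _⟩ := hP.cover (Classical.arbitrary V)
  have hit : ∀ K ∈ P, ∀ n : ℕ, f^[n] K ∈ P := by
    intro K hK n
    induction n with
    | zero => exact hK
    | succ n ihn => rw [Function.iterate_succ_apply']; exact (hf _ ihn).1
  -- a periodic point
  obtain ⟨x, y, hxy, hfe⟩ := Finite.exists_ne_map_eq_of_infinite
    (fun n : ℕ => (⟨f^[n] K0, hit K0 hK0 n⟩ : {K // K ∈ P}))
  have hfe' : f^[x] K0 = f^[y] K0 := congrArg Subtype.val hfe
  obtain ⟨x, y, hlt, hfe'⟩ : ∃ x y : ℕ, x < y ∧ f^[x] K0 = f^[y] K0 := by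
    rcases lt_or_gt_of_ne hxy with h | h
    · exact ⟨x, y, h, hfe'⟩
    · exact ⟨y, x, h, hfe'.symm⟩
  set B := f^[x] K0 with hB
  have hBP : B ∈ P := hit K0 hK0 x
  have hper : f^[y - x] B = B := by
    rw [hB, ← Function.iterate_add_apply, Nat.sub_add_cancel hlt.le]
    exact (hB.symm.trans hfe').symm
  have hmem : B ∈ Function.periodicPts f :=
    ⟨y - x, by omega, hper⟩
  set m := Function.minimalPeriod f B with hm
  have hmpos : 0 < m := Function.minimalPeriod_pos_of_mem_periodicPts hmem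
  have hne : ∀ K ∈ P, f K ≠ K := by
    intro K hK e
    have h1 := hf K hK
    rw [e] at h1
    exact h1.2.1 h1.2.2.1
  have hm2 : 2 ≤ m := by
    rcases Nat.lt_or_ge m 2 with h | h
    · exfalso
      have hm1 : m = 1 := by omega
      have := Function.iterate_minimalPeriod (f := f) (x := B)
      rw [← hm, hm1] at this
      exact hne B hBP this
    · exact h
  let S : ℕ → Finset V := fun n => f^[n] B
  have hSP : ∀ n, S n ∈ P := fun n => hit B hBP n
  have hSper : ∀ n, S (n + m) = S n := by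
    intro n
    change f^[n + m] B = f^[n] B
    rw [Function.iterate_add_apply, hm, Function.iterate_minimalPeriod]
  have hSsucc : ∀ n, S (n + 1) = f (S n) := by
    intro n
    change f^[n + 1] B = f (f^[n] B)
    rw [Function.iterate_succ_apply']
  have hSne : ∀ i j, i < j → j < i + m → S i ≠ S j := by
    intro i j hij hjm e
    have e1 : f^[i % m] B = f^[j % m] B := by
      rw [hm, Function.iterate_mod_minimalPeriod_eq, Function.iterate_mod_minimalPeriod_eq]
      exact e
    have e2 : i % m = j % m :=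
      (Function.iterate_eq_iterate_iff_of_lt_minimalPeriod (Nat.mod_lt _ hmpos)
        (Nat.mod_lt _ hmpos)).mp e1
    have e3 : m ∣ j - i := (Nat.modEq_iff_dvd' hij.le).mp e2
    have := Nat.le_of_dvd (by omega) e3
    omega
  have hPC : PCycle w S (fun n => c (S n)) m :=
    { good := fun i => (hP.nice _ (hSP i)).1
      mem := fun i => by rw [hSsucc]; exact (hf _ (hSP i)).2.2.1
      notMem := fun i => (hf _ (hSP i)).2.1
      pos := fun i => (hf _ (hSP i)).2.2.2.1
      max := fun i v hv => (hf _ (hSP i)).2.2.2.2 v hv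
      disj := fun i j hij hjm => hP.disj _ (hSP i) _ (hSP j) (hSne i j hij hjm)
      per := hSper
      perc := fun i => by simp only [hSper]
      two := hm2 }
  obtain ⟨a, ha⟩ := hPC.closed
  have hOm := hcyc _ a _ ha
  have hnice := hPC.nice hw (fun i => hP.nice _ (hSP i)) hOm
  set U := (range m).biUnion S with hU
  have hSU : ∀ i, i < m → S i ⊆ U := fun i hi x hx =>
    Finset.mem_biUnion.mpr ⟨i, Finset.mem_range.mpr hi, hx⟩
  let P' := insert U (P.filter (fun K => ¬ K ⊆ U))
  have hcard : P'.card < N := by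
    have h1 : P'.card ≤ (P.filter (fun K => ¬ K ⊆ U)).card + 1 := Finset.card_insert_le _ _
    have h2 : (P.filter (fun K => ¬ K ⊆ U)).card + 2 ≤ P.card := by
      have hsub : ({S 0, S 1} : Finset (Finset V)) ⊆ P.filter (fun K => K ⊆ U) := by
        intro K hK
        rw [Finset.mem_insert, Finset.mem_singleton] at hK
        rw [Finset.mem_filter]
        rcases hK with hK | hK
        · rw [hK]; exact ⟨hSP 0, hSU 0 (by omega)⟩
        · rw [hK]; exact ⟨hSP 1, hSU 1 (by omega)⟩
      have h3 := Finset.card_le_card hsub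
      rw [Finset.card_pair (hSne 0 1 (by omega) (by omega))] at h3
      have h4 := Finset.card_filter_add_card_filter_not (s := P) (fun K => K ⊆ U)
      omega
    omega
  refine ih _ hcard P' rfl ?_
  have hdU : ∀ K ∈ P, ¬ K ⊆ U → Disjoint K U := by
    intro K hK hKU
    rw [hU, Finset.disjoint_biUnion_right]
    intro l hl
    refine hP.disj K hK _ (hSP l) ?_
    intro e
    exact hKU (e ▸ hSU l (Finset.mem_range.mp hl))
  refine ⟨?_, ?_, ?_⟩
  · intro K hK
    rcases Finset.mem_insert.mp hK with hK | hK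
    · rw [hK]; exact hnice
    · exact hP.nice K (Finset.mem_filter.mp hK).1
  · intro K hK K' hK' hKK'
    rcases Finset.mem_insert.mp hK with hK | hK <;> rcases Finset.mem_insert.mp hK' with hK' | hK'
    · exact absurd (hK.trans hK'.symm) hKK'
    · rw [hK]
      have := Finset.mem_filter.mp hK'
      exact (hdU K' this.1 this.2).symm
    · rw [hK']
      have := Finset.mem_filter.mp hK
      exact hdU K this.1 this.2
    · exact hP.disj K (Finset.mem_filter.mp hK).1 K' (Finset.mem_filter.mp hK').1 hKK'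
  · intro v
    obtain ⟨K, hK, hvK⟩ := hP.cover v
    by_cases hKU : K ⊆ U
    · exact ⟨U, Finset.mem_insert_self _ _, hKU hvK⟩
    · exact ⟨K, Finset.mem_insert_of_mem (Finset.mem_filter.mpr ⟨hK, hKU⟩), hvK⟩

/-- the theorem for digraphs in which every proper nonempty set has an outgoing arc -/
theorem strong_version [Nonempty V] {w : V → V → ℝ} (hw : ∀ u v, 0 ≤ w u v)
    (h0 : ∀ v, w v v = 0)
    (H : ∀ K : Finset V, K.Nonempty → K ≠ univ → ∃ v, v ∉ K ∧ 0 < W w K v)
    (hin : ∀ v, 1 ≤ ∑ u, w u v) :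
    ∃ (k : ℕ) (f : Fin (k + 2) → V), Function.Injective f ∧
      (∀ i, 0 < w (f i) (f (finRotate (k + 2) i))) ∧
      2 ≤ (∑ i, w (f i) (f (finRotate (k + 2) i))) * Real.logb 2 (Fintype.card V) := by
  by_contra hcon
  push Not at hcon
  have hn2 : 2 ≤ Fintype.card V := by
    by_contra hlt
    have h1 : Fintype.card V ≤ 1 := by omega
    have hs : Subsingleton V := Fintype.card_le_one_iff_subsingleton.mp h1
    obtain ⟨v⟩ := ‹Nonempty V›
    have := hin v
    have hz : ∑ u, w u v = 0 := Finset.sum_eq_zero fun u _ => by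
      rw [Subsingleton.elim u v]; exact h0 v
    rw [hz] at this
    norm_num at this
  have hlog : 0 < Real.logb 2 (Fintype.card V) := by
    apply Real.logb_pos (by norm_num)
    exact_mod_cast (by omega : 1 < Fintype.card V)
  set L := Real.logb 2 (Fintype.card V) with hL
  have hcyc : ∀ K : Finset V, ∀ a x, Reach w K a a x → x < 2 / L := by
    intro K a x hx
    obtain ⟨k, f, hf, hp, hs⟩ := hx.cycle h0
    have := hcon k f hf hp
    rw [lt_div_iff₀ hlog]
    nlinarith
  have hpart : Part w (2 / L) (univ.image (fun v : V => ({v} : Finset V))) := by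
    refine ⟨?_, ?_, ?_⟩
    · intro K hK
      obtain ⟨v, _, rfl⟩ := Finset.mem_image.mp hK
      exact nice_singleton h0 _ v
    · intro K hK K' hK' hne
      obtain ⟨v, _, rfl⟩ := Finset.mem_image.mp hK
      obtain ⟨u, _, rfl⟩ := Finset.mem_image.mp hK'
      rw [Finset.disjoint_singleton]
      intro e; exact hne (by rw [e])
    · intro v
      exact ⟨{v}, Finset.mem_image.mpr ⟨v, Finset.mem_univ v, rfl⟩, by simp⟩
  obtain ⟨_, _, y, _, _, hy⟩ := part_nice hw H hcyc _ _ rfl hpart
  have h1 := hy (by rw [Finset.card_univ]; exact hn2)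
  rw [Finset.card_univ, ← hL] at h1
  have h2 : 2 / L / 2 * L = 1 := by field_simp
  rw [h2] at h1
  have h3 := hin y
  unfold W at h1
  linarith

end Pool.Agent.H85.HC
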