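import Pool.Agent.H85.HCPath

set_option autoImplicit false

namespace Pool.Agent.H85.HC

open Finset

variable {V : Type*} [Fintype V] [DecidableEq V]

/-- from every vertex of `K` every outside target of `K` is reached with the full weight -/
def FGood (w : V → V → ℝ) (K : Finset V) : Prop :=
  ∀ a ∈ K, ∀ v, v ∉ K → 0 < W w K v → Reach w K a v (W w K v)

omit [Fintype V] in
theorem fgood_singleton (w : V → V → ℝ) (a : V) : FGood w {a} := by
  intro b hb v _ hpos
  rw [Finset.mem_singleton] at hb
  subst hb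
  refine ⟨[], by simp, by simp, ?_, ?_⟩
  · simpa [ch, W] using hpos
  · simp [pw, W]

omit [Fintype V] in
theorem W_nonneg {w : V → V → ℝ} (hw : ∀ u v, 0 ≤ w u v) (K : Finset V) (v : V) : 0 ≤ W w K v :=
  Finset.sum_nonneg fun b _ => hw b v

omit [Fintype V] in
/-- travelling along a sequence of good sets -/
theorem travel {w : V → V → ℝ} {S : ℕ → Finset V} {c : ℕ → V} {m : ℕ}
    (hgood : ∀ i, FGood w (S i)) (hc : ∀ i, c i ∈ S (i + 1)) (hcn : ∀ i, c i ∉ S i)
    (hpos : ∀ i, 0 < W w (S i) (c i))
    (hdisj : ∀ i j, i < j → j < i + m → Disjoint (S i) (S j)) :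
    ∀ j, j < m → ∀ i, ∀ a ∈ S i, ∀ v, v ∉ S (i + j) → 0 < W w (S (i + j)) v →
      Reach w ((Finset.Icc i (i + j)).biUnion S) a v
        (∑ l ∈ Finset.Ico i (i + j), W w (S l) (c l) + W w (S (i + j)) v) := by
  intro j
  induction j with
  | zero =>
    intro _ i a ha v hv hp
    simp only [add_zero, Finset.Icc_self, Finset.singleton_biUnion, Finset.Ico_self,
      Finset.sum_empty, zero_add] at *
    exact hgood i a ha v hv hp
  | succ j ih =>
    intro hj i a ha v hv hp
    have h1 : Reach w (S i) a (c i) (W w (S i) (c i)) := hgood i a ha (c i) (hcn i) (hpos i)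
    have e : i + 1 + j = i + (j + 1) := by ring
    have h2 := ih (by omega) (i + 1) (c i) (hc i) v (by rw [e]; exact hv) (by rw [e]; exact hp)
    rw [e] at h2
    have hd : Disjoint (S i) ((Finset.Icc (i + 1) (i + (j + 1))).biUnion S) := by
      rw [Finset.disjoint_biUnion_right]
      intro l hl
      rw [Finset.mem_Icc] at hl
      exact hdisj i l (by omega) (by omega)
    have h3 := h1.trans h2 hd
    refine h3.mono ?_ (le_of_eq ?_)
    · intro x hx
      rw [Finset.mem_union, Finset.mem_biUnion] at hx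
      rw [Finset.mem_biUnion]
      rcases hx with hx | ⟨l, hl, hx⟩
      · exact ⟨i, by rw [Finset.mem_Icc]; omega, hx⟩
      · rw [Finset.mem_Icc] at hl
        exact ⟨l, by rw [Finset.mem_Icc]; omega, hx⟩
    · rw [Finset.sum_eq_sum_Ico_succ_bot (by omega : i < i + (j + 1))]
      ring

/-- periodic data: a pointer cycle of length `m` -/
structure PCycle (w : V → V → ℝ) (S : ℕ → Finset V) (c : ℕ → V) (m : ℕ) : Prop where
  good : ∀ i, FGood w (S i)
  mem : ∀ i, c i ∈ S (i + 1)
  notMem : ∀ i, c i ∉ S i
  pos : ∀ i, 0 < W w (S i) (c i)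
  max : ∀ i v, v ∉ S i → W w (S i) v ≤ W w (S i) (c i)
  disj : ∀ i j, i < j → j < i + m → Disjoint (S i) (S j)
  per : ∀ i, S (i + m) = S i
  perc : ∀ i, c (i + m) = c i
  two : 2 ≤ m

namespace PCycle

variable {w : V → V → ℝ} {S : ℕ → Finset V} {c : ℕ → V} {m : ℕ}

omit [Fintype V] in
theorem union_shift (h : PCycle w S c m) (i : ℕ) :
    (Finset.Ico i (i + m)).biUnion S = (Finset.range m).biUnion S := by
  induction i with
  | zero => simp
  | succ i ih =>
    rw [← ih]
    have hm := h.two
    ext x
    simp only [Finset.mem_biUnion, Finset.mem_Ico]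
    constructor
    · rintro ⟨l, hl, hx⟩
      by_cases hlm : l = i + m
      · exact ⟨i, by omega, by rw [hlm, h.per] at hx; exact hx⟩
      · exact ⟨l, by omega, hx⟩
    · rintro ⟨l, hl, hx⟩
      by_cases hli : l = i
      · exact ⟨i + m, by omega, by rw [h.per, ← hli]; exact hx⟩
      · exact ⟨l, by omega, hx⟩

omit [Fintype V] in
theorem sum_shift (h : PCycle w S c m) (i : ℕ) (g : Finset V → ℝ) :
    ∑ l ∈ Finset.Ico i (i + m), g (S l) = ∑ l ∈ Finset.range m, g (S l) := by
  induction i with
  | zero => simp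
  | succ i ih =>
    rw [← ih]
    have hm := h.two
    have e : i + 1 + m = (i + m) + 1 := by ring
    rw [e, Finset.sum_Ico_succ_top (by omega : i + 1 ≤ i + m),
      Finset.sum_eq_sum_Ico_succ_bot (by omega : i < i + m), h.per]
    ring

omit [Fintype V] in
theorem sum_shift' (h : PCycle w S c m) (i : ℕ) :
    ∑ l ∈ Finset.Ico i (i + m), W w (S l) (c l) = ∑ l ∈ Finset.range m, W w (S l) (c l) := by
  induction i with
  | zero => simp
  | succ i ih =>
    rw [← ih]
    have hm := h.two
    have e : i + 1 + m = (i + m) + 1 := by ring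
    rw [e, Finset.sum_Ico_succ_top (by omega : i + 1 ≤ i + m),
      Finset.sum_eq_sum_Ico_succ_bot (by omega : i < i + m), h.per, h.perc]
    ring

omit [Fintype V] in
/-- the whole pointer cycle gives a cycle of weight at least the sum of the maxima -/
theorem closed (h : PCycle w S c m) :
    ∃ a, Reach w ((Finset.range m).biUnion S) a a (∑ l ∈ Finset.range m, W w (S l) (c l)) := by
  have hm := h.two
  refine ⟨c (m - 1), ?_⟩
  have e : 0 + (m - 1) + 1 = m := by omega
  have hmem : c (m - 1) ∈ S 0 := by
    have := h.mem (m - 1)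
    have e2 : m - 1 + 1 = 0 + m := by omega
    rw [e2, h.per] at this
    exact this
  have := travel h.good h.mem h.notMem h.pos h.disj (m - 1) (by omega) 0 (c (m - 1)) hmem
    (c (m - 1)) (by rw [zero_add]; exact h.notMem (m - 1)) (by rw [zero_add]; exact h.pos (m - 1))
  refine this.mono ?_ ?_
  · intro x hx
    rw [Finset.mem_biUnion] at hx ⊢
    obtain ⟨l, hl, hx⟩ := hx
    rw [Finset.mem_Icc] at hl
    exact ⟨l, by rw [Finset.mem_range]; omega, hx⟩
  · rw [zero_add, ← Finset.range_eq_Ico]
    have e3 : m = (m - 1) + 1 := by omega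
    conv_lhs => rw [e3, Finset.sum_range_succ]

omit [Fintype V] in
theorem W_union (h : PCycle w S c m) (i : ℕ) (v : V) :
    W w ((Finset.range m).biUnion S) v = ∑ l ∈ Finset.Ico i (i + m), W w (S l) v := by
  rw [h.sum_shift i (fun K => W w K v)]
  unfold W
  rw [Finset.sum_biUnion]
  intro a ha b hb hab
  simp only [Finset.coe_range, Set.mem_Iio] at ha hb
  rcases lt_or_gt_of_ne hab with hlt | hlt
  · exact h.disj a b hlt (by omega)
  · exact (h.disj b a hlt (by omega)).symm

omit [Fintype V] in
/-- the union of a pointer cycle of good sets is good -/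
theorem union_good (h : PCycle w S c m) (hw : ∀ u v, 0 ≤ w u v) :
    FGood w ((Finset.range m).biUnion S) := by
  classical
  intro a ha v hv hpos
  rw [Finset.mem_biUnion] at ha
  obtain ⟨i, hi, ha⟩ := ha
  rw [Finset.mem_range] at hi
  have hm := h.two
  have hvn : ∀ l, v ∉ S l := by
    intro l hl
    apply hv
    have := h.union_shift l
    rw [← this, Finset.mem_biUnion]
    exact ⟨l, by rw [Finset.mem_Ico]; omega, hl⟩
  rw [h.W_union i v] at hpos ⊢
  -- largest index with positive weight
  have hex : ∃ j, j < m ∧ 0 < W w (S (i + j)) v := by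
    by_contra hcon
    push_neg at hcon
    have : ∑ l ∈ Finset.Ico i (i + m), W w (S l) v ≤ 0 := by
      apply Finset.sum_nonpos
      intro l hl
      rw [Finset.mem_Ico] at hl
      have := hcon (l - i) (by omega)
      rwa [show i + (l - i) = l by omega] at this
    linarith
  obtain ⟨j, ⟨hj, hjp⟩, hjmax⟩ : ∃ j, (j < m ∧ 0 < W w (S (i + j)) v) ∧
      ∀ j', j < j' → j' < m → ¬ 0 < W w (S (i + j')) v := by
    let P : Finset ℕ := (Finset.range m).filter (fun j => 0 < W w (S (i + j)) v)
    have hP : P.Nonempty := by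
      obtain ⟨j, hj, hjp⟩ := hex
      exact ⟨j, by simp only [P, Finset.mem_filter, Finset.mem_range]; exact ⟨hj, hjp⟩⟩
    refine ⟨P.max' hP, ?_, ?_⟩
    · have := P.max'_mem hP
      simp only [P, Finset.mem_filter, Finset.mem_range] at this
      exact this
    · intro j' hlt hjm hp
      have : j' ∈ P := by simp only [P, Finset.mem_filter, Finset.mem_range]; exact ⟨hjm, hp⟩
      exact absurd (P.le_max' j' this) (by omega)
  have hr := travel h.good h.mem h.notMem h.pos h.disj j hj i a ha v (hvn _) hjp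
  refine hr.mono ?_ ?_
  · intro x hx
    rw [Finset.mem_biUnion] at hx
    obtain ⟨l, hl, hx⟩ := hx
    rw [Finset.mem_Icc] at hl
    rw [← h.union_shift i, Finset.mem_biUnion]
    exact ⟨l, by rw [Finset.mem_Ico]; omega, hx⟩
  · rw [← Finset.sum_Ico_consecutive (fun l => W w (S l) v) (by omega : i ≤ i + j)
      (by omega : i + j ≤ i + m),
      Finset.sum_eq_sum_Ico_succ_bot (by omega : i + j < i + m) (fun l => W w (S l) v)]
    have hz : ∑ l ∈ Finset.Ico (i + j + 1) (i + m), W w (S l) v = 0 := by
      apply Finset.sum_eq_zero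
      intro l hl
      rw [Finset.mem_Ico] at hl
      have := hjmax (l - i) (by omega) (by omega)
      rw [show i + (l - i) = l by omega] at this
      exact le_antisymm (not_lt.mp this) (W_nonneg hw _ _)
    rw [hz, add_zero]
    have : ∑ l ∈ Finset.Ico i (i + j), W w (S l) v
        ≤ ∑ l ∈ Finset.Ico i (i + j), W w (S l) (c l) :=
      Finset.sum_le_sum fun l _ => h.max l v (hvn l)
    linarith

end PCycle

end Pool.Agent.H85.HC
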