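import Mathlib

set_option autoImplicit false

namespace Pool.Agent.H85.HC

open Finset

variable {V : Type*} [Fintype V] [DecidableEq V]

/-- weight of the walk `a, l_0, l_1, ...` -/
def pw (w : V → V → ℝ) : V → List V → ℝ
  | _, [] => 0
  | a, b :: l => w a b + pw w b l

/-- `a, l_0, l_1, ...` follows arcs of positive weight -/
def ch (w : V → V → ℝ) : V → List V → Prop
  | _, [] => True
  | a, b :: l => 0 < w a b ∧ ch w b l

omit [Fintype V] [DecidableEq V] in
theorem pw_append (w : V → V → ℝ) (l : List V) : ∀ (a v : V) (l' : List V),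
    pw w a (l ++ v :: l') = pw w a (l ++ [v]) + pw w v l' := by
  induction l with
  | nil => intro a v l'; simp [pw]
  | cons b l ih => intro a v l'; simp only [List.cons_append, pw]; rw [ih b v l']; ring

omit [Fintype V] [DecidableEq V] in
theorem ch_append (w : V → V → ℝ) (l : List V) : ∀ (a v : V) (l' : List V),
    ch w a (l ++ v :: l') ↔ ch w a (l ++ [v]) ∧ ch w v l' := by
  induction l with
  | nil => intro a v l'; simp [ch]
  | cons b l ih =>
    intro a v l'
    simp only [List.cons_append, ch]
    rw [ih b v l']
    tauto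

/-- total weight of the arcs from `K` to `v` -/
def W (w : V → V → ℝ) (K : Finset V) (v : V) : ℝ := ∑ b ∈ K, w b v

/-- a path inside `K` starting in `a`, followed by an arc to `v`, of weight at least `x` -/
def Reach (w : V → V → ℝ) (K : Finset V) (a v : V) (x : ℝ) : Prop :=
  ∃ l : List V, (a :: l).Nodup ∧ (∀ b ∈ a :: l, b ∈ K) ∧ ch w a (l ++ [v]) ∧ x ≤ pw w a (l ++ [v])

omit [Fintype V] [DecidableEq V] in
theorem Reach.mono {w : V → V → ℝ} {K K' : Finset V} {a v : V} {x y : ℝ}
    (h : Reach w K a v x) (hK : K ⊆ K') (hxy : y ≤ x) : Reach w K' a v y := by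
  obtain ⟨l, h1, h2, h3, h4⟩ := h
  exact ⟨l, h1, fun b hb => hK (h2 b hb), h3, hxy.trans h4⟩

omit [Fintype V] in
theorem Reach.trans {w : V → V → ℝ} {K K' : Finset V} {a v u : V} {x y : ℝ}
    (h : Reach w K a v x) (h' : Reach w K' v u y) (hd : Disjoint K K') :
    Reach w (K ∪ K') a u (x + y) := by
  obtain ⟨l, h1, h2, h3, h4⟩ := h
  obtain ⟨l', h1', h2', h3', h4'⟩ := h'
  refine ⟨l ++ v :: l', ?_, ?_, ?_, ?_⟩
  · have : (a :: l) ++ (v :: l') = a :: (l ++ v :: l') := by simp
    rw [← this, List.nodup_append]
    refine ⟨h1, h1', ?_⟩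
    intro p hp q hq hpq
    subst hpq
    exact (Finset.disjoint_left.mp hd (h2 p hp)) (h2' p hq)
  · intro b hb
    have hb' : b ∈ (a :: l) ++ (v :: l') := by simpa using hb
    rcases List.mem_append.mp hb' with hb | hb
    · exact Finset.mem_union_left _ (h2 b hb)
    · exact Finset.mem_union_right _ (h2' b hb)
  · have : l ++ v :: l' ++ [u] = l ++ v :: (l' ++ [u]) := by simp
    rw [this, ch_append]
    exact ⟨h3, h3'⟩
  · have : l ++ v :: l' ++ [u] = l ++ v :: (l' ++ [u]) := by simp
    rw [this, pw_append]
    linarith

omit [Fintype V] [DecidableEq V] in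
/-- sum over a closed list as a sum over `Fin` -/
theorem pw_eq_sum (w : V → V → ℝ) (l : List V) : ∀ (a v : V),
    pw w a (l ++ [v]) = (∑ i : Fin l.length, w ((a :: l).get i.castSucc) ((a :: l).get i.succ))
      + w ((a :: l).get (Fin.last l.length)) v := by
  induction l with
  | nil => intro a v; simp [pw]
  | cons b l ih =>
    intro a v
    simp only [List.cons_append, pw]
    rw [ih b v]
    simp only [List.length_cons]
    rw [Fin.sum_univ_succ]
    simp only [Fin.castSucc_zero, List.get_eq_getElem, Fin.val_zero, List.getElem_cons_zero,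
      Fin.succ_zero_eq_one]
    rw [add_assoc]
    congr 1

omit [Fintype V] [DecidableEq V] in
theorem ch_get (w : V → V → ℝ) (l : List V) : ∀ (a v : V), ch w a (l ++ [v]) →
    (∀ i : Fin l.length, 0 < w ((a :: l).get i.castSucc) ((a :: l).get i.succ)) ∧
      0 < w ((a :: l).get (Fin.last l.length)) v := by
  induction l with
  | nil => intro a v h; simpa [ch] using h
  | cons b l ih =>
    intro a v h
    simp only [List.cons_append, ch] at h
    obtain ⟨h1, h2⟩ := ih b v h.2
    refine ⟨?_, ?_⟩
    · intro i
      refine Fin.cases ?_ ?_ i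
      · simpa using h.1
      · intro j
        simpa using h1 j
    · simpa using h2

omit [Fintype V] [DecidableEq V] in
/-- a closed reach gives a cycle in the form used by the problem -/
theorem Reach.cycle {w : V → V → ℝ} {K : Finset V} {a : V} {x : ℝ} (h0 : ∀ v, w v v = 0)
    (h : Reach w K a a x) :
    ∃ (k : ℕ) (f : Fin (k + 2) → V), Function.Injective f ∧
      (∀ i, 0 < w (f i) (f (finRotate (k + 2) i))) ∧
      x ≤ ∑ i, w (f i) (f (finRotate (k + 2) i)) := by
  obtain ⟨l, h1, h2, h3, h4⟩ := h
  cases l with
  | nil =>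
    exfalso
    simp only [List.nil_append, ch] at h3
    rw [h0] at h3
    exact lt_irrefl _ h3.1
  | cons b l =>
    refine ⟨l.length, fun i => (a :: b :: l).get i, ?_, ?_, ?_⟩
    · exact List.nodup_iff_injective_get.mp h1
    · obtain ⟨g1, g2⟩ := ch_get w (b :: l) a a h3
      intro i
      refine Fin.lastCases ?_ ?_ i
      · have : finRotate (l.length + 2) (Fin.last (l.length + 1)) = 0 := finRotate_last
        rw [this]
        exact g2
      · intro j
        have : finRotate (l.length + 2) j.castSucc = j.succ := by
          rw [finRotate_apply]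
          simp
        rw [this]
        exact g1 j
    · refine h4.trans ?_
      rw [pw_eq_sum w (b :: l) a a]
      rw [Fin.sum_univ_castSucc]
      apply le_of_eq
      congr 1
      · apply Finset.sum_congr rfl
        intro j _
        have : finRotate (l.length + 2) j.castSucc = j.succ := by
          rw [finRotate_apply]
          simp
        rw [this]
      · have : finRotate (l.length + 2) (Fin.last (l.length + 1)) = 0 := finRotate_last
        rw [this]
        rfl

end Pool.Agent.H85.HC
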